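import Pool.Agent.Work.MP_b989b4_co.RankFour

/-!
Infinitely many excluded minors of rank four for the class of balanced matroids.
-/

namespace Pool.Agent.Results.MP_b989b4_co.RankFour

open Set

/-- The number `b_U(N)` of bases of `N` that contain `U`; `b_∅(N) = b(N)` is the number of all
bases. -/
noncomputable def numBases {α : Type*} (N : Matroid α) (U : Set α) : ℕ :=
  {B : Set α | N.IsBase B ∧ U ⊆ B}.ncard

/-- `N` is negatively correlated: `b_e(N) b_f(N) - b_ef(N) b(N) ≥ 0` for all distinct elements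
`e, f`. -/
def NegativelyCorrelated {α : Type*} (N : Matroid α) : Prop :=
  ∀ e ∈ N.E, ∀ f ∈ N.E, e ≠ f →
    (0 : ℤ) ≤ numBases N {e} * numBases N {f} - numBases N {e, f} * numBases N ∅

/-- `M` is balanced: `M` and all its minors are negatively correlated. -/
def Balanced {α : Type*} (M : Matroid α) : Prop :=
  ∀ N : Matroid α, N.IsMinor M → NegativelyCorrelated N

/-- `M` is an excluded minor for the class of balanced matroids: it is not balanced, but all its
proper minors are. -/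
def ExcludedMinor {α : Type*} (M : Matroid α) : Prop :=
  ¬ Balanced M ∧ ∀ N : Matroid α, N.IsMinor M → N ≠ M → Balanced N

/-- `M` and `N` are isomorphic: some bijection between the ground sets and its inverse map bases
to bases. -/
def Isomorphic {α β : Type*} (M : Matroid α) (N : Matroid β) : Prop :=
  ∃ φ : M.E ≃ N.E, ∀ B : Set M.E,
    M.IsBase (Subtype.val '' B) ↔ N.IsBase (Subtype.val '' (φ '' B))

theorem nc_of {k : ℕ} {N : Matroid (Fin k)}
    (h : ∀ e ∈ N.E, ∀ f ∈ N.E, e ≠ f → Work.MP_b989b4_co.Four N e f) :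
    NegativelyCorrelated N := by
  intro e he f hf hne
  have h1 := (Work.MP_b989b4_co.nc_iff N hne).2 (h e he f hf hne)
  simp only [numBases, singleton_subset_iff, empty_subset, and_true, insert_subset_iff]
  have h2 : (({B : Set (Fin k) | N.IsBase B ∧ e ∈ B ∧ f ∈ B}.ncard : ℤ) *
      {B : Set (Fin k) | N.IsBase B}.ncard ≤
      {B : Set (Fin k) | N.IsBase B ∧ e ∈ B}.ncard *
      {B : Set (Fin k) | N.IsBase B ∧ f ∈ B}.ncard) := by exact_mod_cast h1
  linarith

theorem not_nc {k : ℕ} {N : Matroid (Fin k)} {e f : Fin k} (he : e ∈ N.E) (hf : f ∈ N.E)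
    (hne : e ≠ f) (hbad : ¬ Work.MP_b989b4_co.Four N e f) : ¬ NegativelyCorrelated N := by
  intro h
  apply hbad
  rw [← Work.MP_b989b4_co.nc_iff N hne]
  have h1 := h e he f hf hne
  simp only [numBases, singleton_subset_iff, empty_subset, and_true, insert_subset_iff] at h1
  have h2 : (({B : Set (Fin k) | N.IsBase B ∧ e ∈ B ∧ f ∈ B}.ncard : ℤ) *
      {B : Set (Fin k) | N.IsBase B}.ncard ≤
      {B : Set (Fin k) | N.IsBase B ∧ e ∈ B}.ncard *
      {B : Set (Fin k) | N.IsBase B ∧ f ∈ B}.ncard) := by linarith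
  exact_mod_cast h2

theorem main {p : ℕ} (hp : p.Prime) : ∃ k : ℕ, p ≤ k ∧ k ≤ 3 * p + 2 ∧
    ∃ M : Matroid (Fin k), M.E = univ ∧ M.eRank = 4 ∧ ExcludedMinor M := by
  obtain ⟨k, h1, h2, M, hE, hB, ⟨e, f, hne, hbad⟩, hmin⟩ := Work.MP_b989b4_co.main_four hp
  refine ⟨k, h1, h2, M, hE, ?_, ?_, ?_⟩
  · obtain ⟨B, hMB⟩ := M.exists_isBase
    rw [← hMB.encard_eq_eRank, ← (Set.toFinite B).cast_ncard_eq, hB B hMB]
    rfl
  · intro h
    exact not_nc (by rw [hE]; trivial) (by rw [hE]; trivial) hne hbad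
      (h M (Matroid.IsMinor.refl))
  · intro N hN hNM P hP
    have hs : P.IsStrictMinor M := by
      refine ⟨hP.trans hN, fun h => hNM ?_⟩
      exact hN.antisymm (h.trans hP)
    exact nc_of (hmin P hs)

theorem card_of_iso {k l : ℕ} {M : Matroid (Fin k)} {N : Matroid (Fin l)} (hM : M.E = univ)
    (hN : N.E = univ) (h : Isomorphic M N) : k = l := by
  obtain ⟨φ, _⟩ := h
  have h1 : Nat.card M.E = Nat.card N.E := Nat.card_congr φ
  rw [hM, hN, Nat.card_coe_set_eq, Nat.card_coe_set_eq, ncard_univ, ncard_univ] at h1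
  simpa using h1

/-- There is an infinite sequence of pairwise non-isomorphic excluded minors for the class of
balanced matroids, all of rank four, whose numbers `k i` of elements satisfy
`k i < k (i + 1) ≤ 6 * k i + 2`. -/
theorem result :
    ∃ (k : ℕ → ℕ) (M : (i : ℕ) → Matroid (Fin (k i))),
      (∀ i, (M i).E = univ ∧ (M i).eRank = 4 ∧ ExcludedMinor (M i)) ∧
      (∀ i j, i ≠ j → ¬ Isomorphic (M i) (M j)) ∧
      ∀ i, k i < k (i + 1) ∧ k (i + 1) ≤ 6 * k i + 2 := by
  have hex : ∀ n : ℕ, 0 < n → ∃ k : ℕ, n < k ∧ k ≤ 6 * n + 2 ∧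
      ∃ M : Matroid (Fin k), M.E = univ ∧ M.eRank = 4 ∧ ExcludedMinor M := by
    intro n hn
    obtain ⟨p, hp, hnp, hpn⟩ := Nat.exists_prime_lt_and_le_two_mul n hn.ne'
    obtain ⟨k, h1, h2, M, hM⟩ := main hp
    exact ⟨k, by omega, by omega, M, hM⟩
  let T := {k : ℕ // 0 < k ∧ ∃ M : Matroid (Fin k), M.E = univ ∧ M.eRank = 4 ∧ ExcludedMinor M}
  have hstep : ∀ t : T, ∃ t' : T, t.1 < t'.1 ∧ t'.1 ≤ 6 * t.1 + 2 := by
    rintro ⟨k, hk, _⟩
    obtain ⟨k', h1, h2, h3⟩ := hex k hk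
    exact ⟨⟨k', by omega, h3⟩, h1, h2⟩
  choose g hg using hstep
  obtain ⟨k0, h0, _, h0'⟩ := hex 1 one_pos
  let t0 : T := ⟨k0, by omega, h0'⟩
  let t : ℕ → T := fun i => Nat.rec t0 (fun _ a => g a) i
  have ht : ∀ i, t (i + 1) = g (t i) := fun i => rfl
  choose N hN using fun i => (t i).2.2
  have hlt : ∀ i, (t i).1 < (t (i + 1)).1 := fun i => (ht i).symm ▸ (hg (t i)).1
  have hmono : StrictMono fun i => (t i).1 := strictMono_nat_of_lt_succ hlt
  refine ⟨fun i => (t i).1, N, hN, fun i j hij h => hij ?_, fun i => ⟨hlt i, ?_⟩⟩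
  · exact hmono.injective (card_of_iso (hN i).1 (hN j).1 h)
  · show (t (i + 1)).1 ≤ 6 * (t i).1 + 2
    rw [ht]
    exact (hg (t i)).2

end Pool.Agent.Results.MP_b989b4_co.RankFour
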